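import Pool.Agent.Q276.BA.Stm

/-! # Project BA (helper276), jobs H3, H4, H5: numerical inequalities -/

set_option autoImplicit false

open MeasureTheory Set Filter Topology

namespace Pool.Agent.Q182.BA

open Pool.Agent.Q276.BA

/-- `2 t ≤ log ((1 + t) / (1 - t))` -/
theorem two_le_log {t : ℝ} (h0 : 0 ≤ t) (h1 : t < 1) :
    Real.exp (2 * t) ≤ (1 + t) / (1 - t) := by
  have h2 := Real.hasSum_log_sub_log_of_abs_lt_one (x := t) (by rw [abs_of_nonneg h0]; exact h1)
  have h3 := sum_le_hasSum {0} (fun k _ => by positivity) h2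
  rw [Finset.sum_singleton] at h3
  have h4 : 2 * t ≤ Real.log (1 + t) - Real.log (1 - t) := by
    refine le_trans (le_of_eq ?_) h3
    norm_num
  rw [← Real.log_div (by linarith) (by linarith)] at h4
  calc Real.exp (2 * t) ≤ Real.exp (Real.log ((1 + t) / (1 - t))) := Real.exp_le_exp.2 h4
    _ = _ := Real.exp_log (div_pos (by linarith) (by linarith))

theorem u_nonneg {p : ℝ} (hp : 2 ≤ p) : 0 ≤ 1 - 2 / p := by
  have : 2 / p ≤ 1 := by
    rw [div_le_one (by linarith)]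
    exact hp
  linarith

theorem u_lt {p : ℝ} (hp : 2 ≤ p) : 1 - 2 / p < 1 := by
  have : 0 < 2 / p := by positivity
  linarith

/-- **H3** -/
theorem h3 : S_H3 := by
  intro n p M hp hM hMe
  obtain ⟨u, hu⟩ : ∃ u : ℝ, u = 1 - 2 / p := ⟨_, rfl⟩
  have hu0 : 0 ≤ u := by rw [hu]; exact u_nonneg hp
  have hu1 : u < 1 := by rw [hu]; exact u_lt hp
  have hp0 : p ≠ 0 := by linarith
  have hpu : 1 / p = (1 - u) / 2 := by
    rw [hu]
    field_simp
    ring
  rw [← hu]
  calc M ^ u ≤ (eO n) ^ u := Real.rpow_le_rpow (by linarith) hMe hu0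
    _ = ∏ j ∈ Finset.range n, Real.exp (2 * (u / (2 * (j : ℝ) + 1))) := by
        unfold eO
        rw [← Real.exp_mul, ← Real.exp_sum]
        congr 1
        rw [mul_assoc, Finset.sum_mul, Finset.mul_sum]
        exact Finset.sum_congr rfl fun j _ => by ring
    _ ≤ Pool.Agent.Y282.RB.Cn p n := by
        unfold Pool.Agent.Y282.RB.Cn
        refine Finset.prod_le_prod (fun j _ => (Real.exp_pos _).le) fun j _ => ?_
        have hj : (0 : ℝ) ≤ j := Nat.cast_nonneg j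
        have ha : (0 : ℝ) < 2 * (j : ℝ) + 1 := by linarith
        refine (two_le_log (div_nonneg hu0 ha.le) ?_).trans (le_of_eq ?_)
        · rw [div_lt_one ha]
          linarith
        · rw [hpu]
          have h1 : (2 * (j : ℝ) + 1 - u) ≠ 0 := by
            have : 0 < 2 * (j : ℝ) + 1 - u := by linarith
            exact this.ne'
          have h2 : 1 - u / (2 * (j : ℝ) + 1) ≠ 0 := by
            have : 1 - u / (2 * (j : ℝ) + 1) = (2 * (j : ℝ) + 1 - u) / (2 * (j : ℝ) + 1) := by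
              field_simp
            rw [this]
            exact div_ne_zero h1 ha.ne'
          have h3 : (j : ℝ) + (1 - u) / 2 ≠ 0 := by
            have : 0 < (j : ℝ) + (1 - u) / 2 := by linarith
            exact this.ne'
          rw [div_eq_div_iff h2 h3]
          field_simp
          ring

theorem exp_two_ge : (7.389 : ℝ) ≤ Real.exp 2 := by
  have h := Real.exp_one_gt_d9
  have h2 : Real.exp 2 = Real.exp 1 ^ 2 := by
    rw [← Real.exp_nat_mul]
    norm_num
  rw [h2]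
  nlinarith

theorem exp_83 : (14.38 : ℝ) ≤ Real.exp (8 / 3) := by
  have h := Real.exp_one_gt_d9
  have h2 : Real.exp (8 / 3) ^ 3 = Real.exp 1 ^ 8 := by
    rw [← Real.exp_nat_mul, ← Real.exp_nat_mul]
    norm_num
  have h3 : (2.7182818283 : ℝ) ^ 8 ≤ Real.exp 1 ^ 8 := pow_le_pow_left₀ (by norm_num) h.le 8
  have h4 : (14.38 : ℝ) ^ 3 ≤ (2.7182818283 : ℝ) ^ 8 := by norm_num
  have h5 : (14.38 : ℝ) ^ 3 ≤ Real.exp (8 / 3) ^ 3 := by
    rw [h2]
    exact h4.trans h3
  exact (pow_le_pow_iff_left₀ (by norm_num) (Real.exp_pos _).le (by norm_num)).1 h5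

theorem eO_succ (n : ℕ) : eO (n + 1) = eO n * Real.exp (2 / (2 * (n : ℝ) + 1)) := by
  unfold eO
  rw [Finset.sum_range_succ, mul_add, Real.exp_add]
  congr 2
  ring

theorem eO_ge (n : ℕ) : 2.876 * (2 * ((n : ℝ) + 2) + 1) ≤ eO (n + 2) := by
  induction n with
  | zero =>
    have h1 : eO (0 + 2) = Real.exp (8 / 3) := by
      unfold eO
      rw [Finset.sum_range_succ, Finset.sum_range_succ, Finset.sum_range_zero]
      congr 1
      norm_num
    rw [h1]
    have := exp_83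
    norm_num
    linarith
  | succ n ih =>
    rw [show n + 1 + 2 = (n + 2) + 1 by ring, eO_succ]
    have ha : (0 : ℝ) < 2 * ((n + 2 : ℕ) : ℝ) + 1 := by positivity
    have h1 : 1 + 2 / (2 * ((n + 2 : ℕ) : ℝ) + 1) ≤ Real.exp (2 / (2 * ((n + 2 : ℕ) : ℝ) + 1)) := by
      have := Real.add_one_le_exp (2 / (2 * ((n + 2 : ℕ) : ℝ) + 1))
      linarith
    have h2 : 2.876 * (2 * (((n + 1 : ℕ) : ℝ) + 2) + 1) =
        2.876 * (2 * ((n : ℝ) + 2) + 1) * (1 + 2 / (2 * ((n + 2 : ℕ) : ℝ) + 1)) := by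
      push_cast
      have : (2 * ((n : ℝ) + 2) + 1) ≠ 0 := by positivity
      field_simp
      ring
    rw [h2]
    exact mul_le_mul ih h1 (by positivity) ((by positivity : (0 : ℝ) ≤ _).trans ih)

/-- **H4** -/
theorem h4 : S_H4 := by
  intro n D hn hD h
  have hn0 : (1 : ℝ) ≤ n := by exact_mod_cast hn
  rcases Nat.eq_or_lt_of_le hn with h1 | h1
  · subst h1
    have hD1 : (D : ℝ) ≤ 1 := by exact_mod_cast hD
    have hl : Real.log (2 * ((1 : ℕ) : ℝ) + 1) ≤ 2 := by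
      have := Real.log_le_sub_one_of_pos (x := 2 * ((1 : ℕ) : ℝ) + 1) (by norm_num)
      refine this.trans ?_
      norm_num
    have hl0 : 0 ≤ Real.log (2 * ((1 : ℕ) : ℝ) + 1) := Real.log_nonneg (by norm_num)
    have h2 : Real.sqrt ((2 * (D : ℝ) + 1) * ((1 : ℕ) : ℝ) * Real.log (2 * ((1 : ℕ) : ℝ) + 1)) ≤ 3 := by
      rw [Real.sqrt_le_left (by norm_num)]
      have hD0 : (0 : ℝ) ≤ D := Nat.cast_nonneg D
      have h3 : (2 * (D : ℝ) + 1) * ((1 : ℕ) : ℝ) ≤ 3 := by
        push_cast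
        linarith
      have h4 : (2 * (D : ℝ) + 1) * ((1 : ℕ) : ℝ) * Real.log (2 * ((1 : ℕ) : ℝ) + 1) ≤ 3 * 2 :=
        mul_le_mul h3 hl hl0 (by norm_num)
      linarith
    have h5 : eO 1 = Real.exp 2 := by
      unfold eO
      rw [Finset.sum_range_succ, Finset.sum_range_zero]
      congr 1
      norm_num
    rw [h5]
    have := exp_two_ge
    linarith
  · obtain ⟨m, rfl⟩ : ∃ m, n = m + 2 := ⟨n - 2, by omega⟩
    have h2 := eO_ge m
    have hm : ((m + 2 : ℕ) : ℝ) = (m : ℝ) + 2 := by push_cast; ring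
    obtain ⟨x, hx⟩ : ∃ x : ℝ, x = ((m + 2 : ℕ) : ℝ) := ⟨_, rfl⟩
    rw [← hm] at h2
    rw [← hx] at h h2 hn0 ⊢
    have h3 : Real.sqrt ((2 * (D : ℝ) + 1) * x * Real.log (2 * x + 1)) ≤ 2.876 * (2 * x + 1) - 1 := by
      rw [Real.sqrt_le_left (by linarith)]
      have h4 : (2 * (D : ℝ) + 1) * x * Real.log (2 * x + 1) ≤ 33 * x * x := by
        have := mul_le_mul_of_nonneg_right h (by linarith : (0 : ℝ) ≤ x)
        nlinarith
      nlinarith
    linarith

/-- **H5** -/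
theorem h5 : S_H5 := by
  intro n D p hn hD hp h
  have hn0 : (1 : ℝ) ≤ n := by exact_mod_cast hn
  obtain ⟨u, hu⟩ : ∃ u : ℝ, u = 1 - 2 / p := ⟨_, rfl⟩
  have hu0 : 0 ≤ u := by rw [hu]; exact u_nonneg hp
  have hu1 : u < 1 := by rw [hu]; exact u_lt hp
  rw [← hu]
  obtain ⟨x, hx⟩ : ∃ x : ℝ, x = (n : ℝ) := ⟨_, rfl⟩
  rw [← hx] at h hn0 ⊢
  have he := exp_two_ge
  have h3 : Real.sqrt ((2 * (D : ℝ) + 1) * x * Real.log (2 * x + 1)) ≤ Real.exp 2 * x - 1 := by
    have h7 : 7.389 * x - 1 ≤ Real.exp 2 * x - 1 := by nlinarith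
    refine le_trans ?_ h7
    rw [Real.sqrt_le_left (by linarith)]
    have h4 : (2 * (D : ℝ) + 1) * x * Real.log (2 * x + 1) ≤ (54 * x - 14) * x := by
      have := mul_le_mul_of_nonneg_right h (by linarith : (0 : ℝ) ≤ x)
      nlinarith
    nlinarith [sq_nonneg (x - 1)]
  have h6 : 1 + Real.sqrt ((2 * (D : ℝ) + 1) * x * Real.log (2 * x + 1)) ≤ Real.exp 2 * x := by
    linarith
  have h8 : Real.exp (2 * u) ≤ p - 1 := by
    refine (two_le_log hu0 hu1).trans (le_of_eq ?_)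
    rw [hu]
    have hp0 : p ≠ 0 := by linarith
    field_simp
    ring
  calc (1 + Real.sqrt ((2 * (D : ℝ) + 1) * x * Real.log (2 * x + 1))) ^ u ≤
      (Real.exp 2 * x) ^ u := Real.rpow_le_rpow (by positivity) h6 hu0
    _ = Real.exp (2 * u) * x ^ u := by
        rw [Real.mul_rpow (Real.exp_pos _).le (by linarith), ← Real.exp_mul]
    _ ≤ (p - 1) * x ^ u := mul_le_mul_of_nonneg_right h8 (Real.rpow_nonneg (by linarith) _)
    _ = x ^ u * (p - 1) := mul_comm _ _

end Pool.Agent.Q182.BA
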