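import Pool.Agent.Q276.BA.Stm

/-! # Project BA (helper276), job F1: several frequencies -/

set_option autoImplicit false

open MeasureTheory Set Filter Topology
open scoped ENNReal

namespace Pool.Agent.Q182.BA

open Pool.Agent.Q276.BA

/-- the root of unity -/
noncomputable def zt (m : ℕ) : ℂ := Complex.exp (2 * (Real.pi : ℂ) * Complex.I / m)

theorem zt_prim {m : ℕ} (hm : m ≠ 0) : IsPrimitiveRoot (zt m) m :=
  Complex.isPrimitiveRoot_exp m hm

theorem zt_ne (m : ℕ) : zt m ≠ 0 := Complex.exp_ne_zero _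

theorem zt_norm (m : ℕ) : ‖zt m‖ = 1 := by
  unfold zt
  have h : 2 * (Real.pi : ℂ) * Complex.I / m = ((2 * Real.pi / m : ℝ) : ℂ) * Complex.I := by
    push_cast
    ring
  rw [h, Complex.norm_exp_ofReal_mul_I]

theorem pr_eq (m : ℕ) (k : ℤ) (f : ℂ → ℂ) (z : ℂ) :
    pr m k f z = (1 / (m : ℂ)) * ∑ j ∈ Finset.range m, zt m ^ (-((j : ℤ) * k)) *
      f (zt m ^ j * z) := by
  unfold pr
  refine congrArg _ (Finset.sum_congr rfl fun j _ => ?_)
  have h1 : Complex.exp (-(2 * (Real.pi : ℂ) * Complex.I * (j * k / m))) =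
      zt m ^ (-((j : ℤ) * k)) := by
    unfold zt
    rw [← Complex.exp_int_mul]
    congr 1
    push_cast
    ring
  have h2 : Complex.exp (2 * (Real.pi : ℂ) * Complex.I * (j / m)) = zt m ^ j := by
    unfold zt
    rw [← Complex.exp_nat_mul]
    congr 1
    ring
  rw [h1, h2]

/-- orthogonality -/
theorem orth {m : ℕ} (hm : m ≠ 0) (d : ℤ) :
    ∑ j ∈ Finset.range m, zt m ^ ((j : ℤ) * d) = if (m : ℤ) ∣ d then (m : ℂ) else 0 := by
  have h1 : ∀ j : ℕ, zt m ^ ((j : ℤ) * d) = (zt m ^ d) ^ j := by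
    intro j
    rw [mul_comm, zpow_mul, zpow_natCast]
  rw [Finset.sum_congr rfl fun j _ => h1 j]
  split_ifs with h
  · have h2 : zt m ^ d = 1 := ((zt_prim hm).zpow_eq_one_iff_dvd d).2 h
    simp only [h2, one_pow, Finset.sum_const, Finset.card_range, nsmul_eq_mul, mul_one]
  · have h2 : zt m ^ d ≠ 1 := fun h3 => h (((zt_prim hm).zpow_eq_one_iff_dvd d).1 h3)
    rw [geom_sum_eq h2]
    have h3 : (zt m ^ d) ^ m = 1 := by
      rw [← zpow_natCast, ← zpow_mul, mul_comm, zpow_mul, zpow_natCast, (zt_prim hm).pow_eq_one,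
        one_zpow]
    rw [h3, sub_self, zero_div]

/-- shift of a sum over a period -/
theorem sum_shift {m : ℕ} (g : ℕ → ℂ) (hg : g m = g 0) :
    ∑ j ∈ Finset.range m, g (j + 1) = ∑ j ∈ Finset.range m, g j := by
  have h1 := Finset.sum_range_succ g m
  have h2 := Finset.sum_range_succ' g m
  rw [h1, hg] at h2
  exact (add_right_cancel h2).symm

theorem pr_rot {m : ℕ} (hm : m ≠ 0) (k : ℤ) (f : ℂ → ℂ) (z : ℂ) :
    pr m k f (zt m * z) = zt m ^ k * pr m k f z := by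
  rw [pr_eq, pr_eq]
  have h1 := sum_shift (m := m) (fun j => zt m ^ (-((j : ℤ) * k)) * f (zt m ^ j * z)) (by
    have h2 : zt m ^ (-((m : ℤ) * k)) = 1 :=
      ((zt_prim hm).zpow_eq_one_iff_dvd _).2 (Dvd.dvd.neg_right ⟨k, rfl⟩)
    simp only [h2, (zt_prim hm).pow_eq_one, CharP.cast_eq_zero, zero_mul, neg_zero, zpow_zero,
      pow_zero])
  rw [← h1, mul_left_comm]
  refine congrArg _ ?_
  rw [Finset.mul_sum]
  refine Finset.sum_congr rfl fun j _ => ?_
  have h3 : zt m ^ (-(((j + 1 : ℕ) : ℤ) * k)) = zt m ^ (-((j : ℤ) * k)) * zt m ^ (-k) := by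
    rw [← zpow_add₀ (zt_ne m)]
    congr 1
    push_cast
    ring
  have h4 : zt m ^ k * zt m ^ (-k) = 1 := by
    rw [← zpow_add₀ (zt_ne m), add_neg_cancel, zpow_zero]
  rw [h3, pow_succ, mul_assoc (zt m ^ j)]
  linear_combination (-(zt m ^ (-((j : ℤ) * k)) * f (zt m ^ j * (zt m * z)))) * h4

theorem pr_rot_pow {m : ℕ} (hm : m ≠ 0) (k : ℤ) (f : ℂ → ℂ) (j : ℕ) (z : ℂ) :
    pr m k f (zt m ^ j * z) = zt m ^ ((j : ℤ) * k) * pr m k f z := by
  induction j with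
  | zero => simp
  | succ j ih =>
    rw [pow_succ', mul_assoc, pr_rot hm, ih, ← mul_assoc, ← zpow_add₀ (zt_ne m)]
    congr 2
    push_cast
    ring

theorem pr_pr {m : ℕ} (hm : m ≠ 0) (c k : ℤ) (f : ℂ → ℂ) (z : ℂ) :
    pr m c (pr m k f) z = if (m : ℤ) ∣ k - c then pr m k f z else 0 := by
  rw [pr_eq]
  have h1 : ∀ j ∈ Finset.range m, zt m ^ (-((j : ℤ) * c)) * pr m k f (zt m ^ j * z) =
      zt m ^ ((j : ℤ) * (k - c)) * pr m k f z := by
    intro j _
    rw [pr_rot_pow hm, ← mul_assoc, ← zpow_add₀ (zt_ne m)]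
    congr 2
    ring
  rw [Finset.sum_congr rfl h1, ← Finset.sum_mul, orth hm]
  have hm' : (m : ℂ) ≠ 0 := by exact_mod_cast hm
  split_ifs
  · field_simp
  · rw [zero_mul, mul_zero]

theorem pr_congr {m : ℕ} (hm : m ≠ 0) {c k : ℤ} (h : (m : ℤ) ∣ k - c) (f : ℂ → ℂ) (z : ℂ) :
    pr m k f z = pr m c f z := by
  rw [pr_eq, pr_eq]
  refine congrArg _ (Finset.sum_congr rfl fun j _ => ?_)
  have h1 : zt m ^ (-((j : ℤ) * k)) = zt m ^ (-((j : ℤ) * c)) := by
    have h2 : zt m ^ (-((j : ℤ) * (k - c))) = 1 :=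
      ((zt_prim hm).zpow_eq_one_iff_dvd _).2 ((h.mul_left _).neg_right)
    have h3 : zt m ^ (-((j : ℤ) * k)) = zt m ^ (-((j : ℤ) * (k - c))) * zt m ^ (-((j : ℤ) * c)) := by
      rw [← zpow_add₀ (zt_ne m)]
      congr 1
      ring
    rw [h3, h2, one_mul]
  rw [h1]

/-- Parseval -/
theorem parseval {m : ℕ} (hm : m ≠ 0) (a : ℕ → ℂ) :
    ∑ c ∈ Finset.range m, ‖(1 / (m : ℂ)) * ∑ j ∈ Finset.range m, zt m ^ (-((j : ℤ) * c)) * a j‖ ^ 2 =
      (1 / (m : ℝ)) * ∑ j ∈ Finset.range m, ‖a j‖ ^ 2 := by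
  have hm' : (m : ℂ) ≠ 0 := by exact_mod_cast hm
  have hconj : (starRingEnd ℂ) (zt m) = (zt m)⁻¹ := by
    have h1 : zt m * (starRingEnd ℂ) (zt m) = 1 := by
      rw [Complex.mul_conj, Complex.normSq_eq_norm_sq, zt_norm]
      norm_num
    exact eq_inv_of_mul_eq_one_right h1
  have hsq : ∀ w : ℂ, ((‖w‖ ^ 2 : ℝ) : ℂ) = w * (starRingEnd ℂ) w := by
    intro w
    rw [Complex.mul_conj, Complex.normSq_eq_norm_sq]
  have key : (∑ c ∈ Finset.range m, ((‖(1 / (m : ℂ)) * ∑ j ∈ Finset.range m,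
      zt m ^ (-((j : ℤ) * c)) * a j‖ ^ 2 : ℝ) : ℂ)) =
      (1 / (m : ℂ)) * ∑ j ∈ Finset.range m, ((‖a j‖ ^ 2 : ℝ) : ℂ) := by
    have h1 : ∀ c ∈ Finset.range m, ((‖(1 / (m : ℂ)) * ∑ j ∈ Finset.range m,
        zt m ^ (-((j : ℤ) * c)) * a j‖ ^ 2 : ℝ) : ℂ) =
        (1 / (m : ℂ)) ^ 2 * ∑ j ∈ Finset.range m, ∑ l ∈ Finset.range m,
          (a j * (starRingEnd ℂ) (a l)) * zt m ^ ((c : ℤ) * (l - j)) := by
      intro c _
      have h2 : (starRingEnd ℂ) (1 / (m : ℂ)) = 1 / (m : ℂ) := by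
        rw [map_div₀, map_one, map_natCast]
      rw [hsq, map_mul, map_sum, h2, mul_mul_mul_comm, Finset.sum_mul_sum, ← sq]
      refine congrArg _ (Finset.sum_congr rfl fun j _ => Finset.sum_congr rfl fun l _ => ?_)
      rw [map_mul, map_zpow₀, hconj]
      have h3 : (zt m)⁻¹ ^ (-((l : ℤ) * c)) = zt m ^ ((l : ℤ) * c) := by
        rw [inv_zpow', neg_neg]
      have h4 : zt m ^ ((c : ℤ) * (l - j)) = zt m ^ (-((j : ℤ) * c)) * zt m ^ ((l : ℤ) * c) := by
        rw [← zpow_add₀ (zt_ne m)]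
        congr 1
        ring
      rw [h3, h4]
      ring
    rw [Finset.sum_congr rfl h1, ← Finset.mul_sum, Finset.sum_comm]
    have h5 : ∀ j ∈ Finset.range m, ∑ c ∈ Finset.range m, ∑ l ∈ Finset.range m,
        (a j * (starRingEnd ℂ) (a l)) * zt m ^ ((c : ℤ) * (l - j)) =
        (m : ℂ) * ((‖a j‖ ^ 2 : ℝ) : ℂ) := by
      intro j hj
      rw [Finset.sum_comm]
      have h6 : ∀ l ∈ Finset.range m, ∑ c ∈ Finset.range m,
          (a j * (starRingEnd ℂ) (a l)) * zt m ^ ((c : ℤ) * (l - j)) =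
          if l = j then (m : ℂ) * ((‖a j‖ ^ 2 : ℝ) : ℂ) else 0 := by
        intro l hl
        rw [← Finset.mul_sum, orth hm]
        rw [Finset.mem_range] at hj hl
        have h7 : ((m : ℤ) ∣ (l : ℤ) - j) ↔ l = j := by
          constructor
          · intro h8
            have h9 := Int.eq_zero_of_abs_lt_dvd h8 (by
              rw [abs_lt]
              constructor <;> omega)
            omega
          · rintro rfl
            rw [sub_self]
            exact dvd_zero _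
        by_cases h8 : l = j
        · rw [if_pos (h7.2 h8), if_pos h8, h8, hsq]
          ring
        · rw [if_neg (fun h9 => h8 (h7.1 h9)), if_neg h8, mul_zero]
      rw [Finset.sum_congr rfl h6, Finset.sum_ite_eq' (Finset.range m) j, if_pos hj]
    rw [Finset.sum_congr rfl h5, ← Finset.mul_sum, ← mul_assoc]
    congr 1
    field_simp
  rw [← Complex.ofReal_inj, Complex.ofReal_sum, Complex.ofReal_mul, Complex.ofReal_sum,
    Complex.ofReal_div, Complex.ofReal_one, Complex.ofReal_natCast]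
  exact key

/-! ### Measures -/

theorem pr_meas (m : ℕ) (k : ℤ) {f : ℂ → ℂ} (hf : Measurable f) : Measurable (pr m k f) := by
  have h : pr m k f = fun z => (1 / (m : ℂ)) * ∑ j ∈ Finset.range m, zt m ^ (-((j : ℤ) * k)) *
      f (zt m ^ j * z) := by
    funext z
    exact pr_eq m k f z
  rw [h]
  refine Measurable.const_mul ?_ _
  refine Finset.measurable_sum _ fun j _ => ?_
  exact (hf.comp (measurable_const_mul _)).const_mul _

theorem pr_bd {m : ℕ} (hm : m ≠ 0) (k : ℤ) {f : ℂ → ℂ} {C : ℝ} (hf : ∀ z, ‖f z‖ ≤ C) (z : ℂ) :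
    ‖pr m k f z‖ ≤ C := by
  rw [pr_eq, norm_mul]
  have hm' : (0 : ℝ) < m := by exact_mod_cast Nat.pos_of_ne_zero hm
  have h1 : ‖(1 / (m : ℂ))‖ = 1 / (m : ℝ) := by
    rw [norm_div, norm_one, Complex.norm_natCast]
  have h2 : ‖∑ j ∈ Finset.range m, zt m ^ (-((j : ℤ) * k)) * f (zt m ^ j * z)‖ ≤ m * C := by
    refine (norm_sum_le _ _).trans ?_
    refine (Finset.sum_le_card_nsmul _ _ C fun j _ => ?_).trans (le_of_eq ?_)
    · rw [norm_mul, norm_zpow, zt_norm, one_zpow, one_mul]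
      exact hf _
    · rw [Finset.card_range, nsmul_eq_mul]
  rw [h1]
  calc 1 / (m : ℝ) * _ ≤ 1 / (m : ℝ) * (m * C) := mul_le_mul_of_nonneg_left h2 (by positivity)
    _ = C := by field_simp

theorem pr_BM {m : ℕ} (hm : m ≠ 0) (k : ℤ) {f : ℂ → ℂ} (hf : BM f) : BM (pr m k f) := by
  obtain ⟨h1, C, hC⟩ := hf
  exact ⟨pr_meas m k h1, C, pr_bd hm k hC⟩

/-- invariance of the area -/
theorem lint_rot {a : ℂ} (ha : ‖a‖ = 1) {F : ℂ → ℝ≥0∞} (hF : Measurable F) :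
    ∫⁻ z : ℂ, F (a * z) = ∫⁻ z : ℂ, F z := by
  have h1 : a ∈ Submonoid.unitSphere ℂ := mem_sphere_zero_iff_norm.2 ha
  have h2 := (rotation (⟨a, h1⟩ : Circle)).measurePreserving
  have h3 := h2.lintegral_comp hF
  exact h3

theorem enorm_sq (w : ℂ) : ‖w‖ₑ ^ 2 = ENNReal.ofReal (‖w‖ ^ 2) := by
  rw [ENNReal.ofReal_pow (norm_nonneg _), ofReal_norm]

theorem pr_l2 {m : ℕ} (hm : m ≠ 0) {g : ℂ → ℂ} (hg : Measurable g) :
    ∑ c ∈ Finset.range m, ∫⁻ z : ℂ, ‖pr m (c : ℤ) g z‖ₑ ^ 2 = ∫⁻ z : ℂ, ‖g z‖ₑ ^ 2 := by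
  have hF : Measurable fun z => ‖g z‖ₑ ^ 2 := hg.enorm.pow_const 2
  have h0 := lintegral_finsetSum (μ := (volume : Measure ℂ)) (Finset.range m)
    (f := fun (c : ℕ) z => ‖pr m (c : ℤ) g z‖ₑ ^ 2)
    fun c _ => (pr_meas m (c : ℤ) hg).enorm.pow_const 2
  rw [← h0]
  have h1 : ∀ z : ℂ, ∑ c ∈ Finset.range m, ‖pr m (c : ℤ) g z‖ₑ ^ 2 =
      ENNReal.ofReal (1 / (m : ℝ)) * ∑ j ∈ Finset.range m, ‖g (zt m ^ j * z)‖ₑ ^ 2 := by
    intro z
    simp only [enorm_sq]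
    rw [← ENNReal.ofReal_sum_of_nonneg fun _ _ => by positivity,
      ← ENNReal.ofReal_sum_of_nonneg fun _ _ => by positivity,
      ← ENNReal.ofReal_mul (by positivity)]
    congr 1
    rw [← parseval hm]
    exact Finset.sum_congr rfl fun c _ => by rw [pr_eq]
  have h9 := lintegral_finsetSum (μ := (volume : Measure ℂ)) (Finset.range m)
    (f := fun (j : ℕ) z => ‖g (zt m ^ j * z)‖ₑ ^ 2)
    fun j _ => hF.comp (measurable_const_mul _)
  rw [lintegral_congr h1, lintegral_const_mul' _ _ ENNReal.ofReal_ne_top, h9]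
  have h2 : ∀ j ∈ Finset.range m, ∫⁻ z : ℂ, ‖g (zt m ^ j * z)‖ₑ ^ 2 = ∫⁻ z : ℂ, ‖g z‖ₑ ^ 2 := by
    intro j _
    exact lint_rot (a := zt m ^ j) (by rw [norm_pow, zt_norm, one_pow]) hF
  rw [Finset.sum_congr rfl h2, Finset.sum_const, Finset.card_range, nsmul_eq_mul, ← mul_assoc]
  have h3 : ENNReal.ofReal (1 / (m : ℝ)) * (m : ℝ≥0∞) = 1 := by
    rw [← ENNReal.ofReal_natCast, ← ENNReal.ofReal_mul (by positivity)]
    have : (m : ℝ) ≠ 0 := by exact_mod_cast hm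
    rw [one_div, inv_mul_cancel₀ this, ENNReal.ofReal_one]
  rw [h3, one_mul]

/-- the integrals exist -/
theorem int_ok {q : ℝ → ℝ} (hq : Continuous q) {h : ℂ → ℂ} (hh : BM h) (w : ℂ) :
    IntervalIntegrable (fun v : ℝ => (q v : ℂ) * h ((Real.sqrt v : ℂ) * w)) volume 0 1 := by
  obtain ⟨h1, C, hC⟩ := hh
  have h2 : IntervalIntegrable (fun v : ℝ => (q v : ℂ)) volume 0 1 :=
    (Complex.continuous_ofReal.comp hq).intervalIntegrable _ _
  rw [intervalIntegrable_iff_integrableOn_Ioc_of_le zero_le_one] at h2 ⊢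
  refine Integrable.mul_bdd (c := C) h2 ?_ (ae_of_all _ fun v => hC _)
  refine Measurable.aestronglyMeasurable ?_
  exact h1.comp ((Complex.measurable_ofReal.comp Real.continuous_sqrt.measurable).mul_const _)

theorem AA_meas {q : ℝ → ℝ} (hq : Continuous q) {h : ℂ → ℂ} (hh : Measurable h) :
    Measurable fun z : ℂ => ∫ v in (0 : ℝ)..1, (q v : ℂ) * h ((Real.sqrt v : ℂ) * z) := by
  have h1 : Measurable fun x : ℂ × ℝ => (q x.2 : ℂ) * h ((Real.sqrt x.2 : ℂ) * x.1) := by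
    refine ((Complex.measurable_ofReal.comp (hq.measurable.comp measurable_snd))).mul ?_
    exact hh.comp ((Complex.measurable_ofReal.comp
      (Real.continuous_sqrt.measurable.comp measurable_snd)).mul measurable_fst)
  have h2 : (fun z : ℂ => ∫ v in (0 : ℝ)..1, (q v : ℂ) * h ((Real.sqrt v : ℂ) * z)) =
      fun z => ∫ v in Ioc (0 : ℝ) 1, (q v : ℂ) * h ((Real.sqrt v : ℂ) * z) := by
    funext z
    rw [intervalIntegral.integral_of_le zero_le_one]
  rw [h2]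
  exact (h1.stronglyMeasurable.integral_prod_right'
    (ν := volume.restrict (Ioc (0 : ℝ) 1))).measurable

theorem AS_meas {m : ℕ} {S : Finset ℤ} {Q : ℤ → ℝ → ℝ} (hQ : ∀ k ∈ S, Continuous (Q k)) {f : ℂ → ℂ}
    (hf : Measurable f) : Measurable (AS m S Q f) := by
  unfold AS
  exact hf.add (Finset.measurable_sum _ fun k hk => AA_meas (hQ k hk) (pr_meas m k hf))

/-- the components of `AS f` -/
theorem pr_AS {m : ℕ} (hm : m ≠ 0) {S : Finset ℤ} {Q : ℤ → ℝ → ℝ} (hQ : ∀ k ∈ S, Continuous (Q k))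
    {f : ℂ → ℂ} (hf : BM f) (c : ℤ) (z : ℂ) :
    pr m c (AS m S Q f) z = pr m c f z + ∑ k ∈ S, if (m : ℤ) ∣ k - c then
      ∫ v in (0 : ℝ)..1, (Q k v : ℂ) * pr m c f ((Real.sqrt v : ℂ) * z) else 0 := by
  rw [pr_eq, pr_eq m c f z]
  unfold AS
  have h1 : ∀ j ∈ Finset.range m, zt m ^ (-((j : ℤ) * c)) * (f (zt m ^ j * z) +
      ∑ k ∈ S, ∫ v in (0 : ℝ)..1, (Q k v : ℂ) * pr m k f ((Real.sqrt v : ℂ) * (zt m ^ j * z))) =
      zt m ^ (-((j : ℤ) * c)) * f (zt m ^ j * z) + ∑ k ∈ S, zt m ^ (-((j : ℤ) * c)) *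
        ∫ v in (0 : ℝ)..1, (Q k v : ℂ) * pr m k f ((Real.sqrt v : ℂ) * (zt m ^ j * z)) := by
    intro j _
    rw [mul_add, Finset.mul_sum]
  rw [Finset.sum_congr rfl h1, Finset.sum_add_distrib, mul_add, Finset.sum_comm, Finset.mul_sum S]
  refine congrArg _ (Finset.sum_congr rfl fun k hk => ?_)
  have h2 : ∀ j ∈ Finset.range m, zt m ^ (-((j : ℤ) * c)) *
      (∫ v in (0 : ℝ)..1, (Q k v : ℂ) * pr m k f ((Real.sqrt v : ℂ) * (zt m ^ j * z))) =
      ∫ v in (0 : ℝ)..1, zt m ^ (-((j : ℤ) * c)) *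
        ((Q k v : ℂ) * pr m k f ((Real.sqrt v : ℂ) * (zt m ^ j * z))) := by
    intro j _
    rw [intervalIntegral.integral_const_mul]
  rw [Finset.sum_congr rfl h2, ← intervalIntegral.integral_finsetSum fun j _ =>
    (int_ok (hQ k hk) (pr_BM hm k hf) _).const_mul _, ← intervalIntegral.integral_const_mul]
  have h3 : ∀ v : ℝ, (1 / (m : ℂ)) * ∑ j ∈ Finset.range m, zt m ^ (-((j : ℤ) * c)) *
        ((Q k v : ℂ) * pr m k f ((Real.sqrt v : ℂ) * (zt m ^ j * z))) =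
      (Q k v : ℂ) * if (m : ℤ) ∣ k - c then pr m c f ((Real.sqrt v : ℂ) * z) else 0 := by
    intro v
    have h4 := pr_pr hm c k f ((Real.sqrt v : ℂ) * z)
    have h5 : (if (m : ℤ) ∣ k - c then pr m k f ((Real.sqrt v : ℂ) * z) else 0) =
        if (m : ℤ) ∣ k - c then pr m c f ((Real.sqrt v : ℂ) * z) else 0 := by
      split_ifs with h6
      · exact pr_congr hm h6 f _
      · rfl
    rw [← h5, ← h4, pr_eq, Finset.mul_sum, Finset.mul_sum, Finset.mul_sum]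
    refine Finset.sum_congr rfl fun j _ => ?_
    have h7 : (Real.sqrt v : ℂ) * (zt m ^ j * z) = zt m ^ j * ((Real.sqrt v : ℂ) * z) := by ring
    rw [h7]
    ring
  rw [intervalIntegral.integral_congr fun v _ => h3 v]
  split_ifs with h6
  · rfl
  · simp only [mul_zero, intervalIntegral.integral_zero]

/-- **F1** -/
theorem f1 : S_F1 := by
  intro hE m S Q hm1 hS hQ hid f hf
  have hm : m ≠ 0 := by omega
  rw [← pr_l2 hm (AS_meas hQ hf.1), ← pr_l2 hm hf.1]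
  refine Finset.sum_le_sum fun c _ => ?_
  by_cases hex : ∃ k ∈ S, (m : ℤ) ∣ k - c
  · obtain ⟨k, hk, hkc⟩ := hex
    have h1 : ∀ z : ℂ, pr m (c : ℤ) (AS m S Q f) z = AA (Q k) (pr m (c : ℤ) f) z := by
      intro z
      rw [pr_AS hm hQ hf]
      unfold AA
      refine congrArg _ ?_
      rw [Finset.sum_eq_single k]
      · rw [if_pos hkc]
      · intro l hl hlk
        rw [if_neg]
        intro hlc
        apply hlk
        apply hS l hl k hk
        have : l - k = (l - (c : ℤ)) - (k - (c : ℤ)) := by ring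
        rw [this]
        exact dvd_sub hlc hkc
      · intro h
        exact absurd hk h
    rw [lintegral_congr fun z => by rw [h1 z]]
    exact hE (Q k) (hQ k hk) (hid k hk) _ (pr_BM hm _ hf)
  · have h1 : ∀ z : ℂ, pr m (c : ℤ) (AS m S Q f) z = pr m (c : ℤ) f z := by
      intro z
      rw [pr_AS hm hQ hf, Finset.sum_eq_zero, add_zero]
      intro k hk
      rw [if_neg]
      intro h
      exact hex ⟨k, hk, h⟩
    rw [lintegral_congr fun z => by rw [h1 z]]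

end Pool.Agent.Q182.BA
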